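import Pool.Agent.Helper54.FP.Inst

/-!
# FP-14: conjugation by a matrix over `k((v))`
-/

set_option autoImplicit false
set_option linter.unusedVariables false
set_option linter.unusedSectionVars false

namespace Pool.Agent.Helper54.FP

section conj
variable {k : Type} [Field k]

private theorem conj_θ_ps (F : PowerSeries k) :
    θ k (algebraMap (PowerSeries k) (LaurentSeries k) F) =
      iA k (a2 k (PowerSeries.rescale (Polynomial.X : Polynomial k)
        (PowerSeries.map Polynomial.C F))) := by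
  rw [θ, RingHom.comp_apply, θ2, lK_algebraMap, RingHom.comp_apply, RingHom.comp_apply, φ2,
    IsLocalization.Away.lift_eq, RingHom.comp_apply]

private theorem conj_θ_X :
    θ k (algebraMap (PowerSeries k) (LaurentSeries k) PowerSeries.X) =
      iA k (PowerSeries.X * PowerSeries.C (LaurentPolynomial.T (-1))) := by
  rw [conj_θ_ps, PowerSeries.map_X, PowerSeries.rescale_X, map_mul, a2_X, a2_C,
    Polynomial.toLaurent_X, LaurentPolynomial.invert_T, mul_comm]

private theorem conj_den (f : LaurentSeries k) :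
    ∃ n : ℕ, ∃ F : A0 k, iA k PowerSeries.X ^ n * θ k f = iA k F := by
  obtain ⟨⟨F, ⟨_, n, rfl⟩⟩, hF⟩ :=
    IsLocalization.surj (Submonoid.powers (PowerSeries.X : PowerSeries k)) f
  simp only at hF
  refine ⟨n, PowerSeries.C (LaurentPolynomial.T (n : ℤ)) * a2 k (PowerSeries.rescale
    (Polynomial.X : Polynomial k) (PowerSeries.map Polynomial.C F)), ?_⟩
  have h1 := congrArg (θ k) hF
  rw [map_mul, map_pow, map_pow, conj_θ_X, conj_θ_ps] at h1
  rw [map_mul (iA k), ← h1, map_mul (iA k), mul_pow]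
  have h2 : iA k (PowerSeries.C (LaurentPolynomial.T (n : ℤ))) *
      iA k (PowerSeries.C (LaurentPolynomial.T (-1))) ^ n = 1 := by
    rw [← map_pow, ← map_pow, ← map_mul, ← map_mul, LaurentPolynomial.T_pow,
      ← LaurentPolynomial.T_add]
    have : (n : ℤ) + (n : ℤ) * (-1) = 0 := by ring
    rw [this, LaurentPolynomial.T_zero, map_one, map_one]
  linear_combination (-(iA k PowerSeries.X ^ n * θ k f)) * h2

private theorem conj_den_mat {G : Type} [Fintype G] (C : Matrix G G (LaurentSeries k)) :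
    ∃ n : ℕ, ∃ C' : Matrix G G (A0 k), (iA k PowerSeries.X ^ n) • C.map (θ k) = C'.map (iA k) := by
  classical
  choose n F hF using fun ij : G × G => conj_den (C ij.1 ij.2)
  refine ⟨∑ ij, n ij, fun i j => PowerSeries.X ^ (∑ ij, n ij - n (i, j)) * F (i, j), ?_⟩
  ext i j
  rw [Matrix.smul_apply, Matrix.map_apply, Matrix.map_apply, map_mul, map_pow, ← hF (i, j),
    smul_eq_mul, ← mul_assoc, ← pow_add]
  have h : n (i, j) ≤ ∑ ij, n ij := Finset.single_le_sum (fun _ _ => Nat.zero_le _)
    (Finset.mem_univ (i, j))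
  rw [Nat.sub_add_cancel h]

end conj

theorem conj_estimate {G k : Type} [Fintype G] [DecidableEq G] [Field k]
    (C : Matrix G G (LaurentSeries k)) (hC : IsUnit C) :
    ∃ m : ℕ, ∀ M : Matrix G G (A0 k), ∃ M' : Matrix G G (A0 k),
      C.map (θ k) * ((PowerSeries.X : A0 k) ^ m • M).map (iA k) * (C⁻¹).map (θ k) =
        ((PowerSeries.X : A0 k) • M').map (iA k) := by
  obtain ⟨n1, C1, h1⟩ := conj_den_mat C
  obtain ⟨n2, C2, h2⟩ := conj_den_mat C⁻¹
  refine ⟨n1 + n2 + 1, fun M => ⟨C1 * M * C2, ?_⟩⟩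
  have hs : ∀ (x : A0 k) (N : Matrix G G (A0 k)), (x • N).map (iA k) = iA k x • N.map (iA k) := by
    intro x N
    ext i j
    simp
  rw [hs, hs, Matrix.map_mul, Matrix.map_mul, ← h1, ← h2, map_pow]
  simp only [Matrix.mul_smul, Matrix.smul_mul, smul_smul]
  congr 1
  ring

end Pool.Agent.Helper54.FP
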