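import Pool.Agent.Helper54.FP.Inst

/-!
# FP-13: the interpolating polynomial, and the Artin-Schreier root
-/

set_option autoImplicit false
set_option linter.unusedVariables false
set_option linter.unusedSectionVars false

namespace Pool.Agent.Helper54.FP

section interp
variable {k : Type} [Field k]

private theorem interp_X : algebraMap (PowerSeries k) (LaurentSeries k) PowerSeries.X =
    HahnSeries.single 1 1 := by
  rw [LaurentSeries.coe_algebraMap]
  exact HahnSeries.ofPowerSeries_X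

private theorem interp_c1_single : c1 k (HahnSeries.single 1 1) = t1 k := by
  rw [← interp_X, c1, lK_algebraMap, RingHom.comp_apply, PowerSeries.map_X]
  rfl

private theorem interp_c1_C (c : k) : c1 k (HahnSeries.C c) =
    algebraMap (Pk k) (R1 k) (PowerSeries.C (Polynomial.C c)) := by
  have h : (HahnSeries.C c : LaurentSeries k) =
      algebraMap (PowerSeries k) (LaurentSeries k) (PowerSeries.C c) := by
    rw [LaurentSeries.coe_algebraMap]
    exact (HahnSeries.ofPowerSeries_C c).symm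
  rw [h, c1, lK_algebraMap, RingHom.comp_apply, PowerSeries.map_C]

/-- the image of `k[z]⟦t⟧` -/
private noncomputable def SS (k : Type) [Field k] : Subring (R1 k) :=
  (algebraMap (Pk k) (R1 k)).range

private theorem t1_mem : t1 k ∈ SS k := ⟨_, rfl⟩
private theorem z1_mem : z1 k ∈ SS k := ⟨_, rfl⟩
private theorem c1C_mem (c : k) : c1 k (HahnSeries.C c) ∈ SS k := ⟨_, (interp_c1_C c).symm⟩

private theorem ss_den (f : Polynomial k) (x : R1 k) (m : ℕ) (hx : t1 k ^ m * x ∈ SS k) :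
    ∃ n : ℕ, t1 k ^ n * f.eval₂ ((c1 k).comp HahnSeries.C) x ∈ SS k := by
  induction f using Polynomial.induction_on' with
  | add p q hp hq =>
    obtain ⟨n1, h1⟩ := hp
    obtain ⟨n2, h2⟩ := hq
    refine ⟨n1 + n2, ?_⟩
    rw [Polynomial.eval₂_add]
    have : t1 k ^ (n1 + n2) * (p.eval₂ ((c1 k).comp HahnSeries.C) x +
        q.eval₂ ((c1 k).comp HahnSeries.C) x) =
        t1 k ^ n2 * (t1 k ^ n1 * p.eval₂ ((c1 k).comp HahnSeries.C) x) +
        t1 k ^ n1 * (t1 k ^ n2 * q.eval₂ ((c1 k).comp HahnSeries.C) x) := by ring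
    rw [this]
    exact add_mem (mul_mem (pow_mem t1_mem _) h1) (mul_mem (pow_mem t1_mem _) h2)
  | monomial n a =>
    refine ⟨m * n, ?_⟩
    rw [Polynomial.eval₂_monomial]
    have : t1 k ^ (m * n) * (((c1 k).comp HahnSeries.C) a * x ^ n) =
        c1 k (HahnSeries.C a) * (t1 k ^ m * x) ^ n := by
      rw [RingHom.comp_apply]
      ring
    rw [this]
    exact mul_mem (c1C_mem a) (pow_mem hx _)

private theorem ss_eval (f : Polynomial k) (x : R1 k) (hx : x ∈ SS k) :
    f.eval₂ ((c1 k).comp HahnSeries.C) x ∈ SS k := by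
  induction f using Polynomial.induction_on' with
  | add p q hp hq =>
    rw [Polynomial.eval₂_add]
    exact add_mem hp hq
  | monomial n a =>
    rw [Polynomial.eval₂_monomial]
    exact mul_mem (c1C_mem a) (pow_mem hx _)

private theorem ss_absorb (B n M : ℕ) (x y : R1 k) (hx : t1 k ^ n * x ∈ SS k) (hy : y ∈ SS k)
    (hM : n + B ≤ M) : ∃ s : R1 k, s ∈ SS k ∧ x * (t1 k ^ M * y) = t1 k ^ B * s := by
  obtain ⟨r, rfl⟩ := Nat.exists_eq_add_of_le hM
  refine ⟨(t1 k ^ n * x) * (t1 k ^ r * y), mul_mem hx (mul_mem (pow_mem t1_mem _) hy), ?_⟩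
  ring

private theorem tinv : t1 k * ((isUnit_R1_X k).unit⁻¹ : (R1 k)ˣ) = 1 :=
  (isUnit_R1_X k).mul_val_inv

end interp

theorem exists_poly {p : ℕ} [Fact p.Prime] {k : Type} [Field k] (f1 f2 : Polynomial k) (a B : ℕ)
    (ha : 0 < a) :
    ∃ g : Polynomial (KK k), 0 < g.natDegree ∧ ¬ p ∣ g.natDegree ∧
      (∃ s : Pk k, α1 k a 0 g = β1 k f1 + algebraMap (Pk k) (R1 k) (PowerSeries.X ^ B * s)) ∧
      ∃ s : Pk k, α1 k 1 1 g = β1 k f2 + algebraMap (Pk k) (R1 k) (PowerSeries.X ^ B * s) := by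
  classical
  set T : KK k := HahnSeries.single 1 1 with hT
  have hT0 : T ≠ 0 := by
    rw [hT]
    exact HahnSeries.single_ne_zero one_ne_zero
  have hcT : c1 k T = t1 k := interp_c1_single
  obtain ⟨ti, hti⟩ : ∃ ti : R1 k, ti = (((isUnit_R1_X k).unit⁻¹ : (R1 k)ˣ) : R1 k) := ⟨_, rfl⟩
  have htti : t1 k * ti = 1 := by rw [hti]; exact tinv
  have hcTi : ∀ n : ℕ, c1 k ((T ^ n)⁻¹) = ti ^ n := by
    intro n
    have h1 : c1 k (T ^ n) * c1 k ((T ^ n)⁻¹) = 1 := by
      rw [← map_mul, mul_inv_cancel₀ (pow_ne_zero n hT0), map_one]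
    rw [map_pow, hcT] at h1
    have h2 : t1 k ^ n * ti ^ n = 1 := by rw [← mul_pow, htti, one_pow]
    calc c1 k ((T ^ n)⁻¹) = (t1 k ^ n * ti ^ n) * c1 k ((T ^ n)⁻¹) := by rw [h2, one_mul]
      _ = (t1 k ^ n * c1 k ((T ^ n)⁻¹)) * ti ^ n := by ring
      _ = ti ^ n := by rw [h1, one_mul]
  have htn : ∀ n : ℕ, t1 k ^ n * ti ^ n = 1 := fun n => by rw [← mul_pow, htti, one_pow]
  -- the two polynomials with denominators
  set P1 : Polynomial (KK k) :=
    (f1.map HahnSeries.C).comp (Polynomial.C ((T ^ (a + 1))⁻¹) * Polynomial.X) with hP1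
  set P2 : Polynomial (KK k) :=
    (f2.map HahnSeries.C).comp (Polynomial.C ((T ^ 2)⁻¹) * (Polynomial.X - 1)) with hP2
  have eP1 : ∀ x : R1 k, P1.eval₂ (c1 k) x =
      f1.eval₂ ((c1 k).comp HahnSeries.C) (ti ^ (a + 1) * x) := by
    intro x
    rw [hP1, Polynomial.eval₂_comp, Polynomial.eval₂_map, Polynomial.eval₂_mul,
      Polynomial.eval₂_C, Polynomial.eval₂_X, hcTi]
  have eP2 : ∀ x : R1 k, P2.eval₂ (c1 k) x =
      f2.eval₂ ((c1 k).comp HahnSeries.C) (ti ^ 2 * (x - 1)) := by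
    intro x
    rw [hP2, Polynomial.eval₂_comp, Polynomial.eval₂_map, Polynomial.eval₂_mul,
      Polynomial.eval₂_C, Polynomial.eval₂_sub, Polynomial.eval₂_X, Polynomial.eval₂_one, hcTi]
  -- the two points
  set x0 : R1 k := t1 k ^ a * z1 k with hx0
  set x1 : R1 k := 1 + t1 k * z1 k with hx1
  have hα0 : ∀ g, α1 k a 0 g = g.eval₂ (c1 k) x0 := by
    intro g
    rw [α1, Polynomial.coe_eval₂RingHom, map_zero, map_zero, zero_add]
  have hα1 : ∀ g, α1 k 1 1 g = g.eval₂ (c1 k) x1 := by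
    intro g
    rw [α1, Polynomial.coe_eval₂RingHom, map_one, map_one, pow_one]
  have hβ : ∀ f : Polynomial k, β1 k f = f.eval₂ ((c1 k).comp HahnSeries.C) (z1 k * ti) := by
    intro f
    rw [hti]
    rfl
  have hx0S : x0 ∈ SS k := mul_mem (pow_mem t1_mem _) z1_mem
  have hx1S : x1 ∈ SS k := add_mem (one_mem _) (mul_mem t1_mem z1_mem)
  have e1 : ti ^ (a + 1) * x0 = z1 k * ti := by
    rw [hx0, pow_succ]
    calc ti ^ a * ti * (t1 k ^ a * z1 k) = (t1 k ^ a * ti ^ a) * (z1 k * ti) := by ring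
      _ = z1 k * ti := by rw [htn, one_mul]
  have e2 : ti ^ 2 * (x1 - 1) = z1 k * ti := by
    rw [hx1, add_sub_cancel_left]
    calc ti ^ 2 * (t1 k * z1 k) = (t1 k * ti) * (z1 k * ti) := by ring
      _ = z1 k * ti := by rw [htti, one_mul]
  -- denominators
  obtain ⟨n1, hn1⟩ := ss_den f1 (z1 k * ti) 1 (by
    have : t1 k ^ 1 * (z1 k * ti) = z1 k := by
      rw [pow_one]
      calc t1 k * (z1 k * ti) = (t1 k * ti) * z1 k := by ring
        _ = z1 k := by rw [htti, one_mul]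
    rw [this]
    exact z1_mem)
  obtain ⟨n2, hn2⟩ := ss_den f2 (z1 k * ti) 1 (by
    have : t1 k ^ 1 * (z1 k * ti) = z1 k := by
      rw [pow_one]
      calc t1 k * (z1 k * ti) = (t1 k * ti) * z1 k := by ring
        _ = z1 k := by rw [htti, one_mul]
    rw [this]
    exact z1_mem)
  obtain ⟨n3, hn3⟩ := ss_den f1 (ti ^ (a + 1) * x1) (a + 1) (by
    rw [← mul_assoc, htn, one_mul]
    exact hx1S)
  obtain ⟨n4, hn4⟩ := ss_den f2 (ti ^ 2 * (x0 - 1)) 2 (by
    rw [← mul_assoc, htn, one_mul]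
    exact sub_mem hx0S (one_mem _))
  set M := n1 + n2 + n3 + n4 + B with hM
  have hcop : IsCoprime ((Polynomial.X : Polynomial k) ^ M) ((Polynomial.X - 1) ^ M) := by
    apply IsCoprime.pow
    refine ⟨1, -1, ?_⟩
    ring
  obtain ⟨u, v, huv⟩ := hcop
  set E2 : Polynomial (KK k) := (u * Polynomial.X ^ M).map HahnSeries.C with hE2
  set E1 : Polynomial (KK k) := (v * (Polynomial.X - 1) ^ M).map HahnSeries.C with hE1
  have hE12 : E2 + E1 = 1 := by
    rw [hE2, hE1, ← Polynomial.map_add, huv, Polynomial.map_one]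
  have eE2 : ∀ x : R1 k, E2.eval₂ (c1 k) x =
      u.eval₂ ((c1 k).comp HahnSeries.C) x * x ^ M := by
    intro x
    rw [hE2, Polynomial.eval₂_map, Polynomial.eval₂_mul, Polynomial.eval₂_pow,
      Polynomial.eval₂_X]
  have eE1 : ∀ x : R1 k, E1.eval₂ (c1 k) x =
      v.eval₂ ((c1 k).comp HahnSeries.C) x * (x - 1) ^ M := by
    intro x
    rw [hE1, Polynomial.eval₂_map, Polynomial.eval₂_mul, Polynomial.eval₂_pow,
      Polynomial.eval₂_sub, Polynomial.eval₂_X, Polynomial.eval₂_one]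
  set Q : Polynomial (KK k) := P1 * E1 + P2 * E2 with hQ
  set e : ℕ := p * (Q.natDegree + 1) + 1 with he
  have hp2 : 2 ≤ p := (Fact.out : p.Prime).two_le
  have hlt : Q.natDegree < e := by
    rw [he]
    nlinarith
  set g : Polynomial (KK k) := Q + Polynomial.C (T ^ B) * Polynomial.X ^ e with hg
  have hdeg : g.natDegree = e := by
    have h1 : (Polynomial.C (T ^ B) * Polynomial.X ^ e : Polynomial (KK k)).natDegree = e :=
      Polynomial.natDegree_C_mul_X_pow e _ (pow_ne_zero B hT0)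
    rw [hg, Polynomial.natDegree_add_eq_right_of_natDegree_lt (by rw [h1]; exact hlt), h1]
  have hsum : ∀ x : R1 k, g.eval₂ (c1 k) x = P1.eval₂ (c1 k) x * E1.eval₂ (c1 k) x +
      P2.eval₂ (c1 k) x * E2.eval₂ (c1 k) x + t1 k ^ B * x ^ e := by
    intro x
    rw [hg, hQ]
    simp only [Polynomial.eval₂_add, Polynomial.eval₂_mul, Polynomial.eval₂_C,
      Polynomial.eval₂_pow, Polynomial.eval₂_X, map_pow, hcT]
  have hE12x : ∀ x : R1 k, E2.eval₂ (c1 k) x + E1.eval₂ (c1 k) x = 1 := by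
    intro x
    rw [← Polynomial.eval₂_add, hE12, Polynomial.eval₂_one]
  refine ⟨g, by rw [hdeg]; omega, ?_, ?_, ?_⟩
  · rw [hdeg, he]
    intro hdvd
    have h1 : p ∣ 1 := (Nat.dvd_add_right (dvd_mul_right p _)).1 hdvd
    have := Nat.le_of_dvd one_pos h1
    omega
  · -- at `t ^ a z`
    set y : R1 k := u.eval₂ ((c1 k).comp HahnSeries.C) x0 * (t1 k ^ ((a - 1) * M) * z1 k ^ M)
      with hy
    have hyS : y ∈ SS k := mul_mem (ss_eval u x0 hx0S)
      (mul_mem (pow_mem t1_mem _) (pow_mem z1_mem _))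
    have hE2x : E2.eval₂ (c1 k) x0 = t1 k ^ M * y := by
      rw [eE2, hx0, hy, mul_pow, ← pow_mul]
      have h1 : a * M = (a - 1) * M + M := by
        obtain ⟨b, rfl⟩ : ∃ b, a = b + 1 := ⟨a - 1, by omega⟩
        simp
        ring
      rw [h1, pow_add]
      ring
    obtain ⟨s1, hs1, hs1e⟩ := ss_absorb B n1 M (f1.eval₂ ((c1 k).comp HahnSeries.C) (z1 k * ti)) y
      hn1 hyS (by omega)
    obtain ⟨s2, hs2, hs2e⟩ := ss_absorb B n4 M
      (f2.eval₂ ((c1 k).comp HahnSeries.C) (ti ^ 2 * (x0 - 1))) y hn4 hyS (by omega)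
    have hfin : s2 - s1 + x0 ^ e ∈ SS k := add_mem (sub_mem hs2 hs1) (pow_mem hx0S _)
    obtain ⟨s, hs⟩ := hfin
    refine ⟨s, ?_⟩
    rw [hα0, hsum, hβ, map_mul, map_pow, hs, eP1, eP2, e1]
    have h3 : E1.eval₂ (c1 k) x0 = 1 - E2.eval₂ (c1 k) x0 := by
      rw [← hE12x x0]
      ring
    rw [h3, hE2x]
    change _ = _ + t1 k ^ B * (s2 - s1 + x0 ^ e)
    rw [mul_sub, mul_one, hs1e, hs2e]
    ring
  · -- at `1 + t z`
    set y : R1 k := v.eval₂ ((c1 k).comp HahnSeries.C) x1 * z1 k ^ M with hy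
    have hyS : y ∈ SS k := mul_mem (ss_eval v x1 hx1S) (pow_mem z1_mem _)
    have hE1x : E1.eval₂ (c1 k) x1 = t1 k ^ M * y := by
      rw [eE1, hy]
      have h1 : x1 - 1 = t1 k * z1 k := by rw [hx1, add_sub_cancel_left]
      rw [h1, mul_pow]
      ring
    obtain ⟨s1, hs1, hs1e⟩ := ss_absorb B n2 M (f2.eval₂ ((c1 k).comp HahnSeries.C) (z1 k * ti)) y
      hn2 hyS (by omega)
    obtain ⟨s2, hs2, hs2e⟩ := ss_absorb B n3 M
      (f1.eval₂ ((c1 k).comp HahnSeries.C) (ti ^ (a + 1) * x1)) y hn3 hyS (by omega)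
    have hfin : s2 - s1 + x1 ^ e ∈ SS k := add_mem (sub_mem hs2 hs1) (pow_mem hx1S _)
    obtain ⟨s, hs⟩ := hfin
    refine ⟨s, ?_⟩
    rw [hα1, hsum, hβ, map_mul, map_pow, hs, eP1, eP2, e2]
    have h3 : E2.eval₂ (c1 k) x1 = 1 - E1.eval₂ (c1 k) x1 := by
      rw [← hE12x x1]
      ring
    rw [h3, hE1x]
    change _ = _ + t1 k ^ B * (s2 - s1 + x1 ^ e)
    rw [mul_sub, mul_one, hs1e, hs2e]
    ring

theorem exists_eps {p : ℕ} [Fact p.Prime] {k : Type} [Field k] [CharP k p] (B : ℕ) (hB : 0 < B)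
    (s : Pk k) : ∃ e : Pk k,
      (PowerSeries.X ^ B * e) ^ p - PowerSeries.X ^ B * e = PowerSeries.X ^ B * s := by
  have hp2 : 2 ≤ p := (Fact.out : p.Prime).two_le
  set y : Pk k := PowerSeries.X ^ B * s with hy
  have hydvd : PowerSeries.X ^ B ∣ y := dvd_mul_right _ _
  -- partial sums
  let W : ℕ → Pk k := fun N => - ∑ i ∈ Finset.range N, y ^ (p ^ i)
  have hW0 : W 0 = 0 := by simp [W]
  have hWs : ∀ N, W (N + 1) = W N - y ^ (p ^ N) := by
    intro N
    simp only [W, Finset.sum_range_succ]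
    ring
  have hWeq : ∀ N, W N ^ p - W N = y - y ^ (p ^ N) := by
    intro N
    induction N with
    | zero =>
      rw [hW0, pow_zero, pow_one, sub_self, sub_zero, zero_pow (by omega)]
    | succ N ih =>
      rw [hWs, sub_pow_char, ← pow_mul, ← pow_succ]
      linear_combination ih
  have hypow : ∀ i n : ℕ, n ≤ i → PowerSeries.X ^ n ∣ y ^ (p ^ i) := by
    intro i n hn
    have h1 : (PowerSeries.X : Pk k) ∣ y := (dvd_pow_self _ hB.ne').trans hydvd
    have h2 : n ≤ p ^ i := hn.trans (Nat.lt_pow_self (by omega)).le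
    exact (pow_dvd_pow _ h2).trans (pow_dvd_pow_of_dvd h1 _)
  have hWstab : ∀ n N : ℕ, n < N → PowerSeries.coeff n (W (n + 1)) = PowerSeries.coeff n (W N) := by
    intro n N hnN
    induction N with
    | zero => omega
    | succ N ih =>
      rcases Nat.lt_or_ge n N with h | h
      · rw [ih h, hWs, map_sub]
        have h1 := (PowerSeries.X_pow_dvd_iff.1 (hypow N N le_rfl)) n h
        rw [h1, sub_zero]
      · have : n = N := by omega
        rw [this]
  let w : Pk k := PowerSeries.mk fun n => PowerSeries.coeff n (W (n + 1))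
  have hwW : ∀ N, PowerSeries.X ^ N ∣ w - W N := by
    intro N
    rw [PowerSeries.X_pow_dvd_iff]
    intro m hm
    rw [map_sub, PowerSeries.coeff_mk, hWstab m N hm, sub_self]
  have hweq : w ^ p - w = y := by
    rw [← sub_eq_zero]
    ext1 m
    have h1 : w ^ p - w - y = (w - W (m + 1)) ^ p - (w - W (m + 1)) - y ^ (p ^ (m + 1)) := by
      rw [sub_pow_char]
      linear_combination hWeq (m + 1)
    have h2 : PowerSeries.X ^ (m + 1) ∣ w ^ p - w - y := by
      rw [h1]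
      refine dvd_sub (dvd_sub ?_ (hwW _)) (hypow _ _ le_rfl)
      exact (hwW (m + 1)).trans (dvd_pow_self _ (by omega))
    have h3 := (PowerSeries.X_pow_dvd_iff.1 h2) m (Nat.lt_succ_self m)
    rw [h3, map_zero]
  have hWdvd : ∀ N, PowerSeries.X ^ B ∣ W N := by
    intro N
    simp only [W]
    rw [dvd_neg]
    refine Finset.dvd_sum fun i _ => ?_
    exact hydvd.trans (dvd_pow_self _ (pow_ne_zero _ (by omega)))
  have hwdvd : PowerSeries.X ^ B ∣ w := by
    rw [PowerSeries.X_pow_dvd_iff]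
    intro m hm
    rw [PowerSeries.coeff_mk]
    exact (PowerSeries.X_pow_dvd_iff.1 (hWdvd (m + 1))) m hm
  obtain ⟨e, he⟩ := hwdvd
  exact ⟨e, by rw [← he, hweq]⟩

end Pool.Agent.Helper54.FP
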