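import Pool.Agent.Helper54.FP.Inst

/-!
# FP-20: the coefficients of a Frobenius-recursive matrix of Laurent series
-/

set_option autoImplicit false
set_option linter.unusedVariables false
set_option linter.unusedSectionVars false

namespace Pool.Agent.Helper54.FP

section rational
variable {k K : Type} [Field k] [Field K] [Algebra k K]

/-- the coefficients of index smaller than `N` lie in `R` -/
private def QQ (R : Subalgebra k K) (f : LaurentSeries K) (N : ℤ) : Prop :=
  ∀ m < N, f.coeff m ∈ R

/-- all coefficients of index smaller than `N` vanish -/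
private def VV (f : LaurentSeries K) (N : ℤ) : Prop := ∀ m < N, f.coeff m = 0

private theorem vv_mul {f g : LaurentSeries K} {a b : ℤ} (hf : VV f a) (hg : VV g b) :
    VV (f * g) (a + b) := by
  intro m hm
  rw [HahnSeries.coeff_mul]
  refine Finset.sum_eq_zero fun ij hij => ?_
  rw [Finset.mem_antidiagonal] at hij
  obtain ⟨-, -, h⟩ := hij
  by_cases h1 : ij.1 < a
  · rw [hf _ h1, zero_mul]
  · rw [hg ij.2 (by omega), mul_zero]

private theorem vv_pow {f : LaurentSeries K} {a : ℤ} (hf : VV f a) (n : ℕ) :
    VV (f ^ n) (n * a) := by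
  induction n with
  | zero =>
    intro m hm
    rw [pow_zero, HahnSeries.coeff_one, if_neg]
    rintro rfl
    simp at hm
  | succ n ih =>
    rw [pow_succ]
    have h := vv_mul ih hf
    have h1 : ((n + 1 : ℕ) : ℤ) * a = n * a + a := by push_cast; ring
    rw [h1]
    exact h

private theorem all_mul {R : Subalgebra k K} {f g : LaurentSeries K} (hf : ∀ m, f.coeff m ∈ R)
    (hg : ∀ m, g.coeff m ∈ R) (m : ℤ) : (f * g).coeff m ∈ R := by
  rw [HahnSeries.coeff_mul]
  exact sum_mem fun ij _ => mul_mem (hf _) (hg _)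

private theorem all_pow {R : Subalgebra k K} {f : LaurentSeries K} (hf : ∀ m, f.coeff m ∈ R)
    (n : ℕ) : ∀ m, (f ^ n).coeff m ∈ R := by
  induction n with
  | zero =>
    intro m
    rw [pow_zero, HahnSeries.coeff_one]
    split_ifs
    · exact one_mem _
    · exact zero_mem _
  | succ n ih =>
    rw [pow_succ]
    exact all_mul ih hf

private theorem qq_pow {p : ℕ} [Fact p.Prime] [CharP K p] {R : Subalgebra k K}
    {f : LaurentSeries K} {N : ℤ} (hf : QQ R f N) : QQ R (f ^ p) (p * N) := by
  classical
  have hch : CharP (LaurentSeries K) p :=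
    charP_of_injective_ringHom (f := (HahnSeries.C : K →+* LaurentSeries K))
      (RingHom.injective _) p
  intro m hm
  set g : LaurentSeries K := HahnSeries.truncLT N f with hg
  have hgall : ∀ m, g.coeff m ∈ R := by
    intro m
    rw [hg, HahnSeries.coeff_truncLT]
    split_ifs with h
    · exact hf m h
    · exact zero_mem _
  have hh : VV (f - g) N := by
    intro m hm
    rw [HahnSeries.coeff_sub, hg, HahnSeries.coeff_truncLT, if_pos hm, sub_self]
  have h1 : f ^ p = g ^ p + (f - g) ^ p := by
    rw [← add_pow_char]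
    congr 1
    ring
  rw [h1, HahnSeries.coeff_add, vv_pow hh p m hm, add_zero]
  exact all_pow hgall p m

private theorem qq_px {R : Subalgebra k K} {a : Polynomial K} (ha : ∀ s, a.coeff s ∈ R) {D : ℕ}
    (hD : a.natDegree ≤ D) {f : LaurentSeries K} {N : ℤ} (hf : QQ R f N) :
    QQ R (px K a * f) (N - D) := by
  intro m hm
  rw [HahnSeries.coeff_mul]
  refine sum_mem fun ij hij => ?_
  rw [Finset.mem_antidiagonal] at hij
  obtain ⟨h1, -, h⟩ := hij
  have h2 : (px K a).coeff ij.1 ≠ 0 := h1
  rw [px_coeff] at h2 ⊢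
  split_ifs at h2 ⊢ with h3
  · have h4 : (-ij.1).toNat ≤ a.natDegree := Polynomial.le_natDegree_of_ne_zero h2
    refine mul_mem (ha _) (hf _ ?_)
    omega
  · exact absurd rfl h2

private theorem qq_sum {R : Subalgebra k K} {ι : Type} (s : Finset ι) (f : ι → LaurentSeries K)
    {N : ℤ} (hf : ∀ i ∈ s, QQ R (f i) N) : QQ R (∑ i ∈ s, f i) N := by
  intro m hm
  rw [HahnSeries.coeff_sum]
  exact sum_mem fun i hi => hf i hi m hm

end rational

theorem rational_coeffs {p : ℕ} [Fact p.Prime] {G : Type} [Group G] [Fintype G] [DecidableEq G]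
    {k K : Type} [Field k] [Field K] [Algebra k K] [CharP K p]
    (C : Matrix G G (LaurentSeries K)) (A B : Matrix G G (Polynomial K))
    (h : C = A.map (px K) * C.map (fun x => x ^ p) * B.map (px K)) :
    ∃ S : Finset K, ∀ R : Subalgebra k K, (S : Set K) ⊆ R → ∀ i j n, (C i j).coeff n ∈ R := by
  classical
  have hp2 : 2 ≤ p := (Fact.out : p.Prime).two_le
  set D : ℕ := (∑ ij : G × G, (A ij.1 ij.2).natDegree) + ∑ ij : G × G, (B ij.1 ij.2).natDegree
    with hD
  have hDA : ∀ i j, (A i j).natDegree ≤ D := by
    intro i j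
    have h1 : (A i j).natDegree ≤ ∑ ij : G × G, (A ij.1 ij.2).natDegree :=
      Finset.single_le_sum (f := fun ij : G × G => (A ij.1 ij.2).natDegree)
        (fun _ _ => Nat.zero_le _) (Finset.mem_univ (i, j))
    omega
  have hDB : ∀ i j, (B i j).natDegree ≤ D := by
    intro i j
    have h1 : (B i j).natDegree ≤ ∑ ij : G × G, (B ij.1 ij.2).natDegree :=
      Finset.single_le_sum (f := fun ij : G × G => (B ij.1 ij.2).natDegree)
        (fun _ _ => Nat.zero_le _) (Finset.mem_univ (i, j))
    omega
  set SA : Finset K := Finset.univ.biUnion fun ij : G × G =>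
    (Finset.range ((A ij.1 ij.2).natDegree + 1)).image (A ij.1 ij.2).coeff with hSA
  set SB : Finset K := Finset.univ.biUnion fun ij : G × G =>
    (Finset.range ((B ij.1 ij.2).natDegree + 1)).image (B ij.1 ij.2).coeff with hSB
  set SC : Finset K := Finset.univ.biUnion fun ij : G × G =>
    (Finset.Ico (C ij.1 ij.2).order (2 * D + 1 : ℤ)).image (C ij.1 ij.2).coeff with hSC
  refine ⟨SA ∪ SB ∪ SC, fun R hR => ?_⟩
  have hA : ∀ i j s, (A i j).coeff s ∈ R := by
    intro i j s
    by_cases hs : s ≤ (A i j).natDegree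
    · apply hR
      simp only [Finset.coe_union, Set.mem_union]
      left; left
      rw [Finset.mem_coe, hSA, Finset.mem_biUnion]
      exact ⟨(i, j), Finset.mem_univ _, Finset.mem_image_of_mem _
        (Finset.mem_range.2 (Nat.lt_succ_of_le hs))⟩
    · rw [Polynomial.coeff_eq_zero_of_natDegree_lt (not_le.1 hs)]
      exact zero_mem _
  have hB : ∀ i j s, (B i j).coeff s ∈ R := by
    intro i j s
    by_cases hs : s ≤ (B i j).natDegree
    · apply hR
      simp only [Finset.coe_union, Set.mem_union]
      left; right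
      rw [Finset.mem_coe, hSB, Finset.mem_biUnion]
      exact ⟨(i, j), Finset.mem_univ _, Finset.mem_image_of_mem _
        (Finset.mem_range.2 (Nat.lt_succ_of_le hs))⟩
    · rw [Polynomial.coeff_eq_zero_of_natDegree_lt (not_le.1 hs)]
      exact zero_mem _
  have hC0 : ∀ i j, QQ R (C i j) (2 * D + 1) := by
    intro i j m hm
    by_cases hm' : (C i j).order ≤ m
    · apply hR
      simp only [Finset.coe_union, Set.mem_union]
      right
      rw [Finset.mem_coe, hSC, Finset.mem_biUnion]
      exact ⟨(i, j), Finset.mem_univ _, Finset.mem_image_of_mem _ (Finset.mem_Ico.2 ⟨hm', hm⟩)⟩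
    · rw [HahnSeries.coeff_eq_zero_of_lt_order (not_le.1 hm')]
      exact zero_mem _
  have hstep : ∀ N : ℕ, ∀ i j, QQ R (C i j) (2 * D + 1 + N) := by
    intro N
    induction N with
    | zero =>
      intro i j
      simpa using hC0 i j
    | succ N ih =>
      intro i j
      have hij : C i j = ∑ l', px K (B l' j) * ∑ l, px K (A i l) * (C l l') ^ p := by
        conv_lhs => rw [h]
        rw [Matrix.mul_apply]
        refine Finset.sum_congr rfl fun l' _ => ?_
        rw [Matrix.mul_apply, mul_comm]
        rfl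
      have h1 : QQ R (C i j) (p * (2 * D + 1 + N) - D - D) := by
        rw [hij]
        refine qq_sum _ _ fun l' _ => ?_
        refine qq_px (hB l' j) (hDB l' j) ?_
        refine qq_sum _ _ fun l _ => ?_
        exact qq_px (hA i l) (hDA i l) (qq_pow (ih l l'))
      intro m hm
      apply h1
      have h2 : (2 : ℤ) ≤ p := by exact_mod_cast hp2
      have h3 : (0 : ℤ) ≤ 2 * D + 1 + N := by positivity
      push_cast at hm
      nlinarith
  intro i j n
  obtain ⟨N, hN⟩ : ∃ N : ℕ, n < 2 * D + 1 + N := ⟨n.toNat, by omega⟩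
  exact hstep N i j n hN

end Pool.Agent.Helper54.FP
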